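import Pool.Agent.MZT.A
import Pool.Agent.MZT.G
import Pool.Agent.MZT.HH

set_option autoImplicit false

/-!
# MZTL: triple zeta values outside a line `K x`, every weight
-/

namespace Pool.Agent.MZTL

open Pool.Agent.Helper21 (mzv H zl Adm)
open Pool.Agent.MZA Pool.Agent.MZT

/-- the six values are in `K x` -/
def CleanL (K : IntermediateField ℚ ℝ) (x : ℝ) (a b c : ℕ) : Prop :=
  zl [a, b, c] / x ∈ K ∧ zl [a, c, b] / x ∈ K ∧ zl [b, a, c] / x ∈ K ∧
  zl [b, c, a] / x ∈ K ∧ zl [c, a, b] / x ∈ K ∧ zl [c, b, a] / x ∈ K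

/-- words of weight `n` and depth 3 with value outside `K x` -/
def Out3L (K : IntermediateField ℚ ℝ) (x : ℝ) (n : ℕ) : Set (List ℕ) :=
  {w | w ∈ Idx n ∧ w.length = 3 ∧ zl w / x ∉ K}

/-- MODULE A -/
theorem thm_AL (K : IntermediateField ℚ ℝ) (x : ℝ) (a b c : ℕ) (ha : 2 ≤ a) (hb : 2 ≤ b)
    (hc : 2 ≤ c) (h : CleanL K x a b c) : S a b c / x ∈ K := by
  obtain ⟨h1, h2, h3, h4, h5, h6⟩ := h
  rw [S_eq ha hb hc, add_div, add_div, add_div, add_div, add_div]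
  exact K.add_mem (K.add_mem (K.add_mem (K.add_mem (K.add_mem h1 h2) h3) h4) h5) h6

end Pool.Agent.MZTL
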